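import Pool.Agent.Helper37.CYL.Dihedral
import Pool.Agent.Helper92.CY.Defs

/-!
# The two involutions on the points with values in `k[[s]]`
-/

namespace Pool.Agent.Helper37.CYL

open MvPolynomial Pool.Agent.Helper37.RP Pool.Agent.Helper76.CY Pool.Agent.Helper92.CY

variable {k : Type*} [Field k]

theorem near_isPt {c : Ix → k} {x y : Fin 4 → PowerSeries k} (h : Near c x y) :
    IsPt (pL c) (pL' c) (pQ c) x y :=
  ⟨h.x0, h.y0, h.on.1, h.on.2.1, h.on.2.2⟩

theorem aeval_cG00 {R : Type*} [CommRing R] [Algebra k R] (c : Ix → k) (y : Fin 4 → R) :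
    aeval y (cG c 0 0) = 2 * den (pL c) (pL' c) (pQ c) y := by
  rw [cG, aeval_chow4]
  rfl

theorem aeval_cH00 {R : Type*} [CommRing R] [Algebra k R] (c : Ix → k) (x : Fin 4 → R) :
    aeval x (cH c 0 0) = 2 * den2 (pL c) (pL' c) (pQ c) x := by
  exact aeval_chow4 (fun i j => pL c j i) (fun i j => pL' c j i) (fun i j k l => pQ c k l i j)
    x 0 0

theorem isUnit_den_of {c : Ix → k} {y : Fin 4 → PowerSeries k}
    (h : PowerSeries.constantCoeff (aeval y (cG c 0 0)) ≠ 0) :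
    IsUnit (den (pL c) (pL' c) (pQ c) y) := by
  rw [PowerSeries.isUnit_iff_constantCoeff, isUnit_iff_ne_zero]
  intro h0
  apply h
  rw [aeval_cG00, map_mul, h0, mul_zero]

theorem isUnit_den2_of {c : Ix → k} {x : Fin 4 → PowerSeries k}
    (h : PowerSeries.constantCoeff (aeval x (cH c 0 0)) ≠ 0) :
    IsUnit (den2 (pL c) (pL' c) (pQ c) x) := by
  rw [PowerSeries.isUnit_iff_constantCoeff, isUnit_iff_ne_zero]
  intro h0
  apply h
  rw [aeval_cH00, map_mul, h0, mul_zero]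

theorem sgx_eq {c : Ix → k} {x y : Fin 4 → PowerSeries k} (h : Near c x y)
    (hu : PowerSeries.constantCoeff (aeval y (cG c 0 0)) ≠ 0) :
    sgx c y x = snd1 (pL c) (pL' c) (pQ c) y x := by
  have hd := isUnit_den_of hu
  have h1 := near_isPt h
  have h2 := h1.snd1 (pQ_symm c) hd
  funext j
  have h3 := h1.chow (pQ_symm c) hd 0 j
  rw [h1.x0, h2.x0] at h3
  have h4 : aeval y (cG c 0 0) * (aeval y (cG c 0 0))⁻¹ = 1 := PowerSeries.mul_inv_cancel _ hu
  have h5 := aeval_cG00 c y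
  have h3' : aeval y (cG c 0 j) = den (pL c) (pL' c) (pQ c) y *
      (1 * snd1 (pL c) (pL' c) (pQ c) y x j + x j * 1) := h3
  unfold sgx
  rw [h3']
  rw [h5] at h4 ⊢
  linear_combination (snd1 (pL c) (pL' c) (pQ c) y x j + x j) * h4

theorem sgy_eq {c : Ix → k} {x y : Fin 4 → PowerSeries k} (h : Near c x y)
    (hu : PowerSeries.constantCoeff (aeval x (cH c 0 0)) ≠ 0) :
    sgy c x y = snd2 (pL c) (pL' c) (pQ c) x y := by
  have hd := isUnit_den2_of hu
  have h1 := (near_isPt h).swap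
  have hQ : ∀ i j k l, (fun i j k l => pQ c k l i j) i j k l =
      (fun i j k l => pQ c k l i j) j i k l := fun i j k l => pQ_symm' c k l i j
  have h2 := h1.snd1 hQ hd
  funext j
  have h3 := h1.chow hQ hd 0 j
  rw [h1.x0, h2.x0] at h3
  have h4 : aeval x (cH c 0 0) * (aeval x (cH c 0 0))⁻¹ = 1 := PowerSeries.mul_inv_cancel _ hu
  have h5 := aeval_cH00 c x
  have h3' : aeval x (cH c 0 j) = den2 (pL c) (pL' c) (pQ c) x *
      (1 * snd2 (pL c) (pL' c) (pQ c) x y j + y j * 1) := h3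
  unfold sgy
  rw [h3']
  rw [h5] at h4 ⊢
  linear_combination (snd2 (pL c) (pL' c) (pQ c) x y j + y j) * h4

theorem coeff_one_mul_inv {p q : PowerSeries k} (hp : PowerSeries.constantCoeff p = 0) :
    PowerSeries.coeff 1 (p * q⁻¹) = PowerSeries.coeff 1 p / PowerSeries.constantCoeff q := by
  rw [PowerSeries.coeff_mul, Finset.Nat.sum_antidiagonal_eq_sum_range_succ_mk]
  rw [Finset.sum_range_succ, Finset.sum_range_one]
  simp only [Nat.sub_zero, Nat.sub_self, PowerSeries.coeff_zero_eq_constantCoeff,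
    PowerSeries.constantCoeff_inv]
  rw [show PowerSeries.constantCoeff p = 0 from hp, zero_mul, zero_add, div_eq_mul_inv]

theorem coeff_one_two_mul (p : PowerSeries k) :
    PowerSeries.coeff 1 (2 * p) = 2 * PowerSeries.coeff 1 p := by
  rw [two_mul, map_add, two_mul]

/-- The involution over `y`; `hG` is `jet_G`. -/
theorem step_x {c : Ix → k} (h2 : (2 : k) ≠ 0) {x y : Fin 4 → PowerSeries k}
    (h : Near c x y)
    (hG : PowerSeries.constantCoeff (aeval y (cG c 0 0)) = 2 ∧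
      (∀ j, j ≠ 0 → PowerSeries.constantCoeff (aeval y (cG c 0 j)) = 0) ∧
      PowerSeries.coeff 1 (aeval y (cG c 0 1)) = 2 * PowerSeries.coeff 1 (x 1) ∧
      PowerSeries.coeff 1 (aeval y (cG c 0 2)) = 0 ∧
      PowerSeries.coeff 1 (aeval y (cG c 0 3)) =
        - 2 * F1 c * PowerSeries.coeff 1 (x 1) - 2 * del c * PowerSeries.coeff 1 (y 3)) :
    Near c (sgx c y x) y ∧ sgx c y (sgx c y x) = x ∧
      (∀ i j, 2 * aeval y (cG c i j) =
        aeval y (cG c 0 0) * (x i * sgx c y x j + x j * sgx c y x i)) ∧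
      PowerSeries.coeff 1 (sgx c y x 1) = PowerSeries.coeff 1 (x 1) ∧
      PowerSeries.coeff 1 (sgx c y x 3) = - PowerSeries.coeff 1 (x 3) -
        2 * F1 c * PowerSeries.coeff 1 (x 1) - 2 * del c * PowerSeries.coeff 1 (y 3) := by
  obtain ⟨g0, gj, g1, -, g3⟩ := hG
  have hu : PowerSeries.constantCoeff (aeval y (cG c 0 0)) ≠ 0 := by
    rw [g0]
    exact h2
  have hd := isUnit_den_of hu
  have hpt := near_isPt h
  have hpt' := hpt.snd1 (pQ_symm c) hd
  have hN : Near c (sgx c y x) y := by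
    refine ⟨?_, h.y0, ?_, h.cy, ?_⟩
    · rw [sgx_eq h hu]
      exact hpt'.x0
    · intro i hi
      unfold sgx
      rw [map_sub, map_mul, map_mul, gj i hi, h.cx i hi, mul_zero, zero_mul, sub_zero]
    · rw [sgx_eq h hu]
      exact ⟨hpt'.l, hpt'.l', hpt'.q⟩
  have hc1 : ∀ j, j ≠ 0 → PowerSeries.coeff 1 (sgx c y x j) =
      PowerSeries.coeff 1 (aeval y (cG c 0 j)) - PowerSeries.coeff 1 (x j) := by
    intro j hj
    unfold sgx
    rw [map_sub, mul_assoc, coeff_one_two_mul, coeff_one_mul_inv (gj j hj), g0]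
    rw [mul_div_cancel₀ _ h2]
  refine ⟨hN, ?_, ?_, ?_, ?_⟩
  · rw [sgx_eq hN hu, sgx_eq h hu]
    exact snd1_snd1 _ _ _ _ _ hd
  · intro i j
    have h3 : aeval y (cG c i j) = _ := hpt.chow (pQ_symm c) hd i j
    rw [h3, aeval_cG00, sgx_eq h hu]
    ring
  · rw [hc1 1 (by decide), g1]
    ring
  · rw [hc1 3 (by decide), g3]
    ring

/-- The involution over `x`; `hH` is `jet_H`. -/
theorem step_y {c : Ix → k} (h2 : (2 : k) ≠ 0) (hm : mm c ≠ 0) (hd : del c ≠ 0)
    {x y : Fin 4 → PowerSeries k} (h : Near c x y)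
    (hH : PowerSeries.constantCoeff (aeval x (cH c 0 0)) = 2 * (2 * mm c * del c) ∧
      (∀ j, j ≠ 0 → PowerSeries.constantCoeff (aeval x (cH c 0 j)) = 0) ∧
      PowerSeries.coeff 1 (aeval x (cH c 0 1)) = 0 ∧
      PowerSeries.coeff 1 (aeval x (cH c 0 2)) =
        - 2 * (2 * mm c * del c) * PowerSeries.coeff 1 (x 1) ∧
      PowerSeries.coeff 1 (aeval x (cH c 0 3)) =
        - 2 * F2 c * PowerSeries.coeff 1 (x 1) - 4 * mm c * PowerSeries.coeff 1 (x 3)) :
    Near c x (sgy c x y) ∧ sgy c x (sgy c x y) = y ∧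
      (∀ i j, 2 * aeval x (cH c i j) =
        aeval x (cH c 0 0) * (y i * sgy c x y j + y j * sgy c x y i)) ∧
      PowerSeries.coeff 1 (sgy c x y 3) = - PowerSeries.coeff 1 (y 3) -
        (F2 c * PowerSeries.coeff 1 (x 1) + 2 * mm c * PowerSeries.coeff 1 (x 3)) /
          (mm c * del c) := by
  obtain ⟨g0, gj, -, -, g3⟩ := hH
  have hu : PowerSeries.constantCoeff (aeval x (cH c 0 0)) ≠ 0 := by
    rw [g0]
    exact mul_ne_zero h2 (mul_ne_zero (mul_ne_zero h2 hm) hd)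
  have hd2 := isUnit_den2_of hu
  have hpt := (near_isPt h).swap
  have hQ : ∀ i j k l, (fun i j k l => pQ c k l i j) i j k l =
      (fun i j k l => pQ c k l i j) j i k l := fun i j k l => pQ_symm' c k l i j
  have hpt' := hpt.snd1 hQ hd2
  have hN : Near c x (sgy c x y) := by
    refine ⟨h.x0, ?_, h.cx, ?_, ?_⟩
    · rw [sgy_eq h hu]
      exact hpt'.x0
    · intro i hi
      unfold sgy
      rw [map_sub, map_mul, map_mul, gj i hi, h.cy i hi, mul_zero, zero_mul, sub_zero]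
    · rw [sgy_eq h hu]
      have h3 := hpt'.swap
      exact ⟨h3.l, h3.l', h3.q⟩
  refine ⟨hN, ?_, ?_, ?_⟩
  · rw [sgy_eq hN hu, sgy_eq h hu]
    exact snd1_snd1 _ _ _ _ _ hd2
  · intro i j
    have h3 : aeval x (cH c i j) = _ := hpt.chow hQ hd2 i j
    rw [h3, aeval_cH00, sgy_eq h hu]
    unfold snd2 den2
    ring
  · have e1 : PowerSeries.coeff 1 (sgy c x y 3) =
        2 * (PowerSeries.coeff 1 (aeval x (cH c 0 3)) / (2 * (2 * mm c * del c))) -
          PowerSeries.coeff 1 (y 3) := by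
      unfold sgy
      rw [map_sub, mul_assoc, coeff_one_two_mul, coeff_one_mul_inv (gj 3 (by decide)), g0]
    rw [e1, g3]
    field_simp
    ring

end Pool.Agent.Helper37.CYL
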