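import Pool.Agent.Helper37.CYL.Point

/-!
# Points near an arc

`A` is an algebra of power series over `K` with many `K`-points; `z` is a point of an affine variety
over `K` whose coordinates are fractions of elements of `A` with unit denominators.  A polynomial
over an extension `k` of `K` which vanishes at all `K`-points of the variety vanishes at `z`.
-/

namespace Pool.Agent.Helper37.CYL

open MvPolynomial

/-- The image of a polynomial under a linear functional. -/
noncomputable def func {K k σ : Type*} [Field K] [Field k] [Algebra K k] (l : k →ₗ[K] K)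
    (F : MvPolynomial σ k) : MvPolynomial σ K :=
  ∑ m ∈ F.support, monomial m (l (coeff m F))

theorem aeval_func {K k σ : Type*} [Field K] [Field k] [Algebra K k] (l : k →ₗ[K] K)
    (F : MvPolynomial σ k) (P : σ → K) :
    eval P (func l F) = l (aeval (fun i => algebraMap K k (P i)) F) := by
  rw [func, map_sum, aeval_def, eval₂_eq, map_sum]
  refine Finset.sum_congr rfl fun m _ => ?_
  rw [eval_monomial, Algebra.algebraMap_self, RingHom.id_apply]
  have e1 : ∏ i ∈ m.support, (algebraMap K k (P i)) ^ m i =
      algebraMap K k (∏ i ∈ m.support, P i ^ m i) := by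
    rw [map_prod]
    exact Finset.prod_congr rfl fun i _ => (map_pow _ _ _).symm
  rw [e1, mul_comm (coeff m F), ← Algebra.smul_def, map_smul, smul_eq_mul, mul_comm]
  rfl

theorem coeff_aeval_func {K k σ : Type*} [Field K] [Field k] [Algebra K k] (l : k →ₗ[K] K)
    (F : MvPolynomial σ k) (z : σ → PowerSeries K) (n : ℕ) :
    PowerSeries.coeff n (aeval z (func l F)) =
      l (PowerSeries.coeff n
        (aeval (fun i => PowerSeries.map (algebraMap K k) (z i)) F)) := by
  rw [func, map_sum, map_sum, aeval_def (R := k), eval₂_eq, map_sum, map_sum]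
  refine Finset.sum_congr rfl fun m _ => ?_
  have e1 : ∏ i ∈ m.support, (PowerSeries.map (algebraMap K k) (z i)) ^ m i =
      PowerSeries.map (algebraMap K k) (∏ i ∈ m.support, z i ^ m i) := by
    rw [map_prod]
    exact Finset.prod_congr rfl fun i _ => (map_pow _ _ _).symm
  rw [e1]
  have e2 : ∀ a : k, algebraMap k (PowerSeries k) a = PowerSeries.C a := fun a => rfl
  rw [e2, PowerSeries.coeff_C_mul, PowerSeries.coeff_map, mul_comm, ← Algebra.smul_def, map_smul,
    smul_eq_mul, aeval_monomial]
  have e3 : ∀ a : K, algebraMap K (PowerSeries K) a = PowerSeries.C a := fun a => rfl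
  rw [e3, PowerSeries.coeff_C_mul, mul_comm]
  rfl

/-- A polynomial over an extension `k` of `K` which vanishes at all `K`-points of an affine variety
over `K` vanishes at the arc `z`. -/
theorem arc_dense {K k σ : Type*} [Field K] [Field k] [Algebra K k] [Finite σ]
    (A : Subalgebra K (PowerSeries K)) (hZ : ∀ a : A, a ≠ 0 → ∃ φ : A →ₐ[K] K, φ a ≠ 0)
    (I : Ideal (MvPolynomial σ K)) (z : σ → fracSub A) (hz : ∀ f ∈ I, aeval z f = 0)
    (F : MvPolynomial σ k)
    (hF : ∀ P : σ → K, (∀ f ∈ I, eval P f = 0) → aeval (fun i => algebraMap K k (P i)) F = 0) :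
    aeval (fun i => PowerSeries.map (algebraMap K k) (z i : PowerSeries K)) F = 0 := by
  by_contra hne
  obtain ⟨n, hn⟩ : ∃ n, PowerSeries.coeff n
      (aeval (fun i => PowerSeries.map (algebraMap K k) (z i : PowerSeries K)) F) ≠ 0 := by
    by_contra hcon
    push Not at hcon
    exact hne (PowerSeries.ext fun n => by rw [hcon n, map_zero])
  obtain ⟨l, hl⟩ : ∃ l : k →ₗ[K] K, l (PowerSeries.coeff n
      (aeval (fun i => PowerSeries.map (algebraMap K k) (z i : PowerSeries K)) F)) ≠ 0 := by
    by_contra hcon
    push Not at hcon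
    exact hn ((Module.forall_dual_apply_eq_zero_iff K _).mp hcon)
  rw [← coeff_aeval_func] at hl
  have h1 : aeval z (func l F) ≠ 0 := by
    intro h0
    apply hl
    have h2 := congrArg (fracSub A).val h0
    rw [map_zero, comp_aeval_apply] at h2
    have h3 : aeval (fun i => ((z i : fracSub A) : PowerSeries K)) (func l F) = 0 := h2
    rw [h3, map_zero]
  let g : (MvPolynomial σ K ⧸ I) →ₐ[K] fracSub A := Ideal.Quotient.liftₐ I (aeval z) hz
  obtain ⟨φ, hφ⟩ := exists_point_frac A hZ g (Ideal.Quotient.mk I (func l F)) (by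
    intro h0
    exact h1 h0)
  let P : σ → K := fun i => φ (Ideal.Quotient.mk I (X i))
  have hP : ∀ f : MvPolynomial σ K, φ (Ideal.Quotient.mk I f) = eval P f := by
    intro f
    have h2 : (φ.comp (Ideal.Quotient.mkₐ K I)) = aeval P := by
      apply MvPolynomial.algHom_ext
      intro i
      rw [aeval_X]
      rfl
    have h3 := DFunLike.congr_fun h2 f
    rw [MvPolynomial.aeval_eq_eval] at h3
    exact h3
  apply hφ
  rw [hP, aeval_func, hF P ?_, map_zero]
  intro f hf
  rw [← hP, Ideal.Quotient.eq_zero_iff_mem.mpr hf, map_zero]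

end Pool.Agent.Helper37.CYL
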