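import Pool.Agent.Helper37.CYL.Dihedral

/-!
# Extension of the field of coefficients

`k` is a subfield of `k'` and `R` is a `k'`-algebra.  Points and chains over `R` for data with
coefficients in `k` are the same as for the images of the data in `k'`.
-/

namespace Pool.Agent.Helper37.CYL

open Matrix MvPolynomial
open Pool.Agent.Helper37.RP

variable {k k' R : Type*} [Field k] [Field k'] [CommRing R] [Algebra k k'] [Algebra k R]
  [Algebra k' R] [IsScalarTower k k' R]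

/-- The image of a bilinear form. -/
def mapL (k' : Type*) [Field k'] [Algebra k k'] (L : Matrix (Fin 4) (Fin 4) k) :
    Matrix (Fin 4) (Fin 4) k' := fun i j => algebraMap k k' (L i j)

/-- The image of a form of bidegree `(2,2)`. -/
def mapQ (k' : Type*) [Field k'] [Algebra k k'] (Q : Fin 4 → Fin 4 → Fin 4 → Fin 4 → k) :
    Fin 4 → Fin 4 → Fin 4 → Fin 4 → k' := fun i j a b => algebraMap k k' (Q i j a b)

theorem onL_scal (L : Matrix (Fin 4) (Fin 4) k) (x y : Fin 4 → R) :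
    OnL (mapL k' L) x y ↔ OnL L x y := by
  simp only [OnL, mapL, ← IsScalarTower.algebraMap_apply k k' R]

theorem onQ_scal (Q : Fin 4 → Fin 4 → Fin 4 → Fin 4 → k) (x y : Fin 4 → R) :
    OnQ (mapQ k' Q) x y ↔ OnQ Q x y := by
  simp only [OnQ, mapQ, ← IsScalarTower.algebraMap_apply k k' R]

theorem My_scal (Q : Fin 4 → Fin 4 → Fin 4 → Fin 4 → k) (y : Fin 4 → R) :
    My (mapQ k' Q) y = My Q y := by
  ext i j
  show aeval y (quad (mapQ k' Q) i j) = aeval y (quad Q i j)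
  rw [aeval_quad, aeval_quad]
  simp only [mapQ, ← IsScalarTower.algebraMap_apply k k' R]

theorem lin_scal (L : Matrix (Fin 4) (Fin 4) k) (y : Fin 4 → R) (i : Fin 4) :
    aeval y (lin (mapL k' L) i) = aeval y (lin L i) := by
  rw [aeval_lin, aeval_lin]
  simp only [mapL, ← IsScalarTower.algebraMap_apply k k' R]

theorem Ny_scal (L L' : Matrix (Fin 4) (Fin 4) k) (y : Fin 4 → R) :
    Ny (mapL k' L) (mapL k' L') y = Ny L L' y := by
  unfold Ny
  simp only [lin_scal]

theorem den_scal (L L' : Matrix (Fin 4) (Fin 4) k) (Q : Fin 4 → Fin 4 → Fin 4 → Fin 4 → k)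
    (y : Fin 4 → R) : den (mapL k' L) (mapL k' L') (mapQ k' Q) y = den L L' Q y := by
  unfold den
  rw [My_scal, Ny_scal]

theorem snd1_scal (L L' : Matrix (Fin 4) (Fin 4) k) (Q : Fin 4 → Fin 4 → Fin 4 → Fin 4 → k)
    (y x : Fin 4 → R) : snd1 (mapL k' L) (mapL k' L') (mapQ k' Q) y x = snd1 L L' Q y x := by
  unfold snd1
  rw [My_scal, Ny_scal, den_scal]

theorem isPt_scal (L L' : Matrix (Fin 4) (Fin 4) k) (Q : Fin 4 → Fin 4 → Fin 4 → Fin 4 → k)
    (x y : Fin 4 → R) : IsPt (mapL k' L) (mapL k' L') (mapQ k' Q) x y ↔ IsPt L L' Q x y :=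
  ⟨fun h => ⟨h.x0, h.y0, (onL_scal L x y).mp h.l, (onL_scal L' x y).mp h.l',
    (onQ_scal Q x y).mp h.q⟩, fun h => ⟨h.x0, h.y0, (onL_scal L x y).mpr h.l,
    (onL_scal L' x y).mpr h.l', (onQ_scal Q x y).mpr h.q⟩⟩

theorem den2_scal (L L' : Matrix (Fin 4) (Fin 4) k) (Q : Fin 4 → Fin 4 → Fin 4 → Fin 4 → k)
    (x : Fin 4 → R) : den2 (mapL k' L) (mapL k' L') (mapQ k' Q) x = den2 L L' Q x :=
  den_scal (k' := k') (fun i j => L j i) (fun i j => L' j i) (fun i j k l => Q k l i j) x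

theorem snd2_scal (L L' : Matrix (Fin 4) (Fin 4) k) (Q : Fin 4 → Fin 4 → Fin 4 → Fin 4 → k)
    (x y : Fin 4 → R) : snd2 (mapL k' L) (mapL k' L') (mapQ k' Q) x y = snd2 L L' Q x y :=
  snd1_scal (k' := k') (fun i j => L j i) (fun i j => L' j i) (fun i j k l => Q k l i j) x y

theorem IsChain.scal {L L' : Matrix (Fin 4) (Fin 4) k} {Q : Fin 4 → Fin 4 → Fin 4 → Fin 4 → k}
    {X Y : ℤ → Fin 4 → R} (h : IsChain L L' Q X Y) :
    IsChain (mapL k' L) (mapL k' L') (mapQ k' Q) X Y where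
  pt := fun i => (isPt_scal L L' Q _ _).mpr (h.pt i)
  ux := fun i => by rw [den_scal]; exact h.ux i
  uy := fun i => by rw [den2_scal]; exact h.uy i
  sX := fun i => by rw [snd1_scal]; exact h.sX i
  sY := h.sY
  tX := h.tX
  tY := fun i => by rw [snd2_scal]; exact h.tY i

end Pool.Agent.Helper37.CYL
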