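import Pool.Agent.Helper37.CYL.Arc
import Pool.Agent.Helper37.CYL.Scal
import Pool.Agent.Helper47.NI.Bi

/-!
# Points of the threefold near an arc
-/

namespace Pool.Agent.Helper37.CYL

open MvPolynomial
open Pool.Agent.Helper37.RP
open Pool.Agent.Helper47.NI (bev)

universe u

theorem aeval_iterToSum {k : Type u} [Field k] {n : ℕ} {A : Type*} [CommRing A] [Algebra k A]
    (x y : Fin n → A) (F : MvPolynomial (Fin n) (MvPolynomial (Fin n) k)) :
    aeval (Sum.elim x y) (iterToSum k (Fin n) (Fin n) F) = bev x y F := by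
  have h : ((aeval (Sum.elim x y) : MvPolynomial (Fin n ⊕ Fin n) k →ₐ[k] A) :
      MvPolynomial (Fin n ⊕ Fin n) k →+* A).comp (iterToSum k (Fin n) (Fin n)) = bev x y := by
    apply MvPolynomial.ringHom_ext
    · intro r
      have h2 : ((((aeval (Sum.elim x y) : MvPolynomial (Fin n ⊕ Fin n) k →ₐ[k] A) :
          MvPolynomial (Fin n ⊕ Fin n) k →+* A).comp (iterToSum k (Fin n) (Fin n))).comp C :
          MvPolynomial (Fin n) k →+* A) = (bev x y).comp C := by
        apply MvPolynomial.ringHom_ext
        · intro s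
          simp [bev, iterToSum_C_C]
        · intro i
          simp [bev, iterToSum_C_X]
      exact DFunLike.congr_fun h2 r
    · intro i
      simp [bev, iterToSum_X]
  exact DFunLike.congr_fun h F

/-- The polynomial `L(x, y)`. -/
noncomputable def polyL {K : Type*} [Field K] (L : Matrix (Fin 4) (Fin 4) K) :
    MvPolynomial (Fin 4 ⊕ Fin 4) K :=
  ∑ i, ∑ j, C (L i j) * (X (Sum.inl i) * X (Sum.inr j))

/-- The polynomial `Q(x, y)`. -/
noncomputable def polyQ {K : Type*} [Field K] (Q : Fin 4 → Fin 4 → Fin 4 → Fin 4 → K) :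
    MvPolynomial (Fin 4 ⊕ Fin 4) K :=
  ∑ i, ∑ j, ∑ a, ∑ b, C (Q i j a b) *
    (X (Sum.inl i) * X (Sum.inl j) * (X (Sum.inr a) * X (Sum.inr b)))

theorem aeval_polyL {K R : Type*} [Field K] [CommRing R] [Algebra K R]
    (L : Matrix (Fin 4) (Fin 4) K) (x y : Fin 4 → R) :
    aeval (Sum.elim x y) (polyL L) = 0 ↔ OnL L x y := by
  simp [polyL, OnL]

theorem aeval_polyQ {K R : Type*} [Field K] [CommRing R] [Algebra K R]
    (Q : Fin 4 → Fin 4 → Fin 4 → Fin 4 → K) (x y : Fin 4 → R) :
    aeval (Sum.elim x y) (polyQ Q) = 0 ↔ OnQ Q x y := by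
  simp [polyQ, OnQ]

/-- A polynomial over an extension `k` of `K` which vanishes at all `K`-points of the threefold with
`x 0 = y 0 = 1` vanishes at every arc with coordinates in `fracSub A`. -/
theorem bev_arc {K k : Type u} [Field K] [Field k] [Algebra K k]
    (L L' : Matrix (Fin 4) (Fin 4) K) (Q : Fin 4 → Fin 4 → Fin 4 → Fin 4 → K)
    (A : Subalgebra K (PowerSeries K)) (hZ : ∀ a : A, a ≠ 0 → ∃ φ : A →ₐ[K] K, φ a ≠ 0)
    (x y : Fin 4 → fracSub A) (hpt : IsPt L L' Q x y)
    (F : MvPolynomial (Fin 4) (MvPolynomial (Fin 4) k))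
    (hF : ∀ x y : Fin 4 → K, IsPt L L' Q x y →
      bev (fun i => algebraMap K k (x i)) (fun i => algebraMap K k (y i)) F = 0) :
    bev (fun i => PowerSeries.map (algebraMap K k) (x i : PowerSeries K))
      (fun i => PowerSeries.map (algebraMap K k) (y i : PowerSeries K)) F = 0 := by
  have h := arc_dense (k := k) A hZ (RingHom.ker (aeval (Sum.elim x y) :
    MvPolynomial (Fin 4 ⊕ Fin 4) K →ₐ[K] fracSub A)) (Sum.elim x y) (fun f hf => hf)
    (iterToSum k (Fin 4) (Fin 4) F) ?_
  · rw [← aeval_iterToSum]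
    have e : (fun i => PowerSeries.map (algebraMap K k)
        ((Sum.elim x y i : fracSub A) : PowerSeries K)) =
        Sum.elim (fun i => PowerSeries.map (algebraMap K k) (x i : PowerSeries K))
          (fun i => PowerSeries.map (algebraMap K k) (y i : PowerSeries K)) := by
      funext i
      cases i <;> rfl
    rw [← e]
    exact h
  · intro P hP
    have hev : ∀ f : MvPolynomial (Fin 4 ⊕ Fin 4) K, aeval (Sum.elim x y) f = 0 →
        aeval (Sum.elim (fun i => P (Sum.inl i)) (fun i => P (Sum.inr i))) f = 0 := by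
      intro f hf
      have := hP f hf
      rw [show (Sum.elim (fun i => P (Sum.inl i)) (fun i => P (Sum.inr i))) = P by
        funext i
        cases i <;> rfl]
      rw [aeval_eq_eval]
      exact this
    have h1 : IsPt L L' Q (fun i => P (Sum.inl i)) (fun i => P (Sum.inr i)) := by
      refine ⟨?_, ?_, ?_, ?_, ?_⟩
      · have := hev (X (Sum.inl 0) - 1) (by
          rw [map_sub, aeval_X, map_one, Sum.elim_inl, hpt.x0, sub_self])
        rw [map_sub, aeval_X, map_one, Sum.elim_inl] at this
        exact sub_eq_zero.mp this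
      · have := hev (X (Sum.inr 0) - 1) (by
          rw [map_sub, aeval_X, map_one, Sum.elim_inr, hpt.y0, sub_self])
        rw [map_sub, aeval_X, map_one, Sum.elim_inr] at this
        exact sub_eq_zero.mp this
      · exact (aeval_polyL L _ _).mp (hev _ ((aeval_polyL L x y).mpr hpt.l))
      · exact (aeval_polyL L' _ _).mp (hev _ ((aeval_polyL L' x y).mpr hpt.l'))
      · exact (aeval_polyQ Q _ _).mp (hev _ ((aeval_polyQ Q x y).mpr hpt.q))
    have h2 := hF _ _ h1
    rw [← aeval_iterToSum] at h2
    have e : (fun i => algebraMap K k (P i)) =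
        Sum.elim (fun i => algebraMap K k (P (Sum.inl i)))
          (fun i => algebraMap K k (P (Sum.inr i))) := by
      funext i
      cases i <;> rfl
    rw [e]
    exact h2

end Pool.Agent.Helper37.CYL
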