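import Pool.Agent.Helper37.RP.Pr4
import Pool.Agent.Helper37.RP.Inst

/-!
# The dihedral chain of points over a common ramification point

`R` is a commutative `k`-algebra with a homomorphism `ρ : R → k` such that all elements which are
not killed by `ρ` are units.  `(x₀, y₀)` is a point over `k` of the threefold
`L(x, y) = L'(x, y) = Q(x, y) = 0` in `P^3 × P^3`, with `x₀ 0 = y₀ 0 = 1`, which is ramified over both
factors and isolated in its fibres.  The two involutions act on the set `Pts` of `R`-points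
which reduce to `(x₀, y₀)`, and `zc z i` (`i` an integer) is the orbit of `z`.
-/

namespace Pool.Agent.Helper37.CYL

open Matrix MvPolynomial
open Pool.Agent.Helper37.RP

variable {k : Type*} [Field k]

/-- The matrix of `Q(., y)`. -/
noncomputable def My {R : Type*} [CommRing R] [Algebra k R] (Q : Fin 4 → Fin 4 → Fin 4 → Fin 4 → k)
    (y : Fin 4 → R) : Matrix (Fin 4) (Fin 4) R :=
  (quad Q).map (aeval y : MvPolynomial (Fin 4) k →ₐ[k] R)

/-- The Pluecker matrix of the line `L(., y) = L'(., y) = 0`. -/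
noncomputable def Ny {R : Type*} [CommRing R] [Algebra k R] (L L' : Matrix (Fin 4) (Fin 4) k)
    (y : Fin 4 → R) : Matrix (Fin 4) (Fin 4) R :=
  N4 (fun i => aeval y (lin L i)) (fun i => aeval y (lin L' i))

/-- The value of `Q(., y)` at the point of the line with first coordinate zero. -/
noncomputable def den {R : Type*} [CommRing R] [Algebra k R] (L L' : Matrix (Fin 4) (Fin 4) k)
    (Q : Fin 4 → Fin 4 → Fin 4 → Fin 4 → k) (y : Fin 4 → R) : R :=
  bil (My Q y) (fun i => Ny L L' y i 0) (fun i => Ny L L' y i 0)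

/-- The second point over `y`. -/
noncomputable def snd1 {R : Type*} [CommRing R] [Algebra k R] (L L' : Matrix (Fin 4) (Fin 4) k)
    (Q : Fin 4 → Fin 4 → Fin 4 → Fin 4 → k) (y x : Fin 4 → R) : Fin 4 → R :=
  refl (My Q y) (Ny L L' y) 0 (Ring.inverse (den L L' Q y)) x

theorem map_My {R S : Type*} [CommRing R] [Algebra k R] [CommRing S] [Algebra k S] (f : R →ₐ[k] S)
    (Q : Fin 4 → Fin 4 → Fin 4 → Fin 4 → k) (y : Fin 4 → R) :
    (My Q y).map f = My Q (fun i => f (y i)) := by
  ext i j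
  simp only [My, Matrix.map_apply]
  exact (comp_aeval_apply y f (quad Q i j))

theorem map_Ny {R S : Type*} [CommRing R] [Algebra k R] [CommRing S] [Algebra k S] (f : R →ₐ[k] S)
    (L L' : Matrix (Fin 4) (Fin 4) k) (y : Fin 4 → R) :
    (Ny L L' y).map f = Ny L L' (fun i => f (y i)) := by
  unfold Ny
  have h := map_N4 (f : R →+* S) (fun i => aeval y (lin L i)) (fun i => aeval y (lin L' i))
  have e1 : ∀ L : Matrix (Fin 4) (Fin 4) k, (fun i => (f : R →+* S) (aeval y (lin L i))) =
      fun i => aeval (fun i => f (y i)) (lin L i) := by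
    intro L
    funext i
    exact comp_aeval_apply y f (lin L i)
  rw [e1, e1] at h
  exact h

theorem map_den {R S : Type*} [CommRing R] [Algebra k R] [CommRing S] [Algebra k S] (f : R →ₐ[k] S)
    (L L' : Matrix (Fin 4) (Fin 4) k) (Q : Fin 4 → Fin 4 → Fin 4 → Fin 4 → k) (y : Fin 4 → R) :
    f (den L L' Q y) = den L L' Q (fun i => f (y i)) := by
  unfold den
  have h := map_bil (f : R →+* S) (My Q y) (fun i => Ny L L' y i 0) (fun i => Ny L L' y i 0)
  have e1 : (My Q y).map (f : R →+* S) = My Q (fun i => f (y i)) := map_My f Q y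
  have e2 : (fun i => (f : R →+* S) (Ny L L' y i 0)) = fun i => Ny L L' (fun i => f (y i)) i 0 := by
    funext i
    rw [← map_Ny f L L' y]
    rfl
  rw [e1, e2] at h
  exact h

theorem map_inverse {R S : Type*} [CommRing R] [CommRing S] (f : R →+* S) {a : R}
    (ha : IsUnit a) : f (Ring.inverse a) = Ring.inverse (f a) := by
  have h1 : f a * f (Ring.inverse a) = 1 := by
    rw [← map_mul, Ring.mul_inverse_cancel a ha, map_one]
  have h2 : f a * Ring.inverse (f a) = 1 := Ring.mul_inverse_cancel _ (ha.map f)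
  calc f (Ring.inverse a) = (f a * Ring.inverse (f a)) * f (Ring.inverse a) := by
        rw [h2, one_mul]
    _ = (f a * f (Ring.inverse a)) * Ring.inverse (f a) := by ring
    _ = Ring.inverse (f a) := by rw [h1, one_mul]

theorem map_snd1 {R S : Type*} [CommRing R] [Algebra k R] [CommRing S] [Algebra k S]
    (f : R →ₐ[k] S) (L L' : Matrix (Fin 4) (Fin 4) k) (Q : Fin 4 → Fin 4 → Fin 4 → Fin 4 → k)
    (y x : Fin 4 → R) (hu : IsUnit (den L L' Q y)) (i : Fin 4) :
    f (snd1 L L' Q y x i) = snd1 L L' Q (fun i => f (y i)) (fun i => f (x i)) i := by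
  unfold snd1
  have h := map_refl (f : R →+* S) (My Q y) (Ny L L' y) 0 (Ring.inverse (den L L' Q y)) x i
  have e1 : (My Q y).map (f : R →+* S) = My Q (fun i => f (y i)) := map_My f Q y
  have e2 : (Ny L L' y).map (f : R →+* S) = Ny L L' (fun i => f (y i)) := map_Ny f L L' y
  have e3 : (f : R →+* S) (Ring.inverse (den L L' Q y)) =
      Ring.inverse (den L L' Q (fun i => f (y i))) := by
    rw [map_inverse _ hu, ← map_den f]
    rfl
  rw [e1, e2, e3] at h
  exact h

/-- The normalised points over `R`. -/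
structure IsPt {R : Type*} [CommRing R] [Algebra k R] (L L' : Matrix (Fin 4) (Fin 4) k)
    (Q : Fin 4 → Fin 4 → Fin 4 → Fin 4 → k) (x y : Fin 4 → R) : Prop where
  x0 : x 0 = 1
  y0 : y 0 = 1
  l : OnL L x y
  l' : OnL L' x y
  q : OnQ Q x y

theorem IsPt.map {R S : Type*} [CommRing R] [Algebra k R] [CommRing S] [Algebra k S]
    (f : R →ₐ[k] S) {L L' : Matrix (Fin 4) (Fin 4) k} {Q : Fin 4 → Fin 4 → Fin 4 → Fin 4 → k}
    {x y : Fin 4 → R} (h : IsPt L L' Q x y) :
    IsPt L L' Q (fun i => f (x i)) (fun i => f (y i)) where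
  x0 := by rw [h.x0, map_one]
  y0 := by rw [h.y0, map_one]
  l := by
    have := congrArg f h.l
    simpa [OnL] using this
  l' := by
    have := congrArg f h.l'
    simpa [OnL] using this
  q := by
    have := congrArg f h.q
    simpa [OnQ] using this

/-- Exchange of the two factors. -/
theorem IsPt.swap {R : Type*} [CommRing R] [Algebra k R] {L L' : Matrix (Fin 4) (Fin 4) k}
    {Q : Fin 4 → Fin 4 → Fin 4 → Fin 4 → k} {x y : Fin 4 → R} (h : IsPt L L' Q x y) :
    IsPt (fun i j => L j i) (fun i j => L' j i) (fun i j k l => Q k l i j) y x :=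
  ⟨h.y0, h.x0, (onL_swap L x y).mpr h.l, (onL_swap L' x y).mpr h.l', (onQ_swap Q x y).mpr h.q⟩

section

variable {L L' : Matrix (Fin 4) (Fin 4) k} {Q : Fin 4 → Fin 4 → Fin 4 → Fin 4 → k}
  (hQ : ∀ i j k l, Q i j k l = Q j i k l)
  {R : Type*} [CommRing R] [Algebra k R] {x y : Fin 4 → R}

include hQ

theorem IsPt.snd1 (h : IsPt L L' Q x y) (hu : IsUnit (den L L' Q y)) :
    IsPt L L' Q (snd1 L L' Q y x) y := by
  have hu1 : den L L' Q y * Ring.inverse (den L L' Q y) = 1 := Ring.mul_inverse_cancel _ hu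
  have h1 := (onL_iff L x y).mp h.l
  have h2 := (onL_iff L' x y).mp h.l'
  have h3 := (onQ_iff Q x y).mp h.q
  refine ⟨?_, h.y0, ?_, ?_, ?_⟩
  · rw [Pool.Agent.Helper37.CYL.snd1, refl_apply_self, h.x0]
    simp [Ny, N4]
  · rw [onL_iff]
    exact dot_refl _ h1 0 (dot_N4_left _ _ 0) _
  · rw [onL_iff]
    exact dot_refl _ h2 0 (dot_N4_right _ _ 0) _
  · rw [onQ_iff]
    exact bil_refl (quad_symm Q hQ y) h3 0 _ hu1

/-- The two points over `y`. -/
theorem IsPt.chow (h : IsPt L L' Q x y) (hu : IsUnit (den L L' Q y)) (i j : Fin 4) :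
    aeval y (chow4 L L' Q i j) = den L L' Q y *
      (x i * Pool.Agent.Helper37.CYL.snd1 L L' Q y x j +
        x j * Pool.Agent.Helper37.CYL.snd1 L L' Q y x i) := by
  have hu1 : den L L' Q y * Ring.inverse (den L L' Q y) = 1 := Ring.mul_inverse_cancel _ hu
  rw [aeval_chow4]
  exact gram_eq_refl (quad_symm Q hQ y)
    (isLine_N4 _ _ x ((onL_iff L x y).mp h.l) ((onL_iff L' x y).mp h.l'))
    ((onQ_iff Q x y).mp h.q) 0 h.x0 _ hu1 i j

end

theorem snd1_snd1 {R : Type*} [CommRing R] [Algebra k R] (L L' : Matrix (Fin 4) (Fin 4) k)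
    (Q : Fin 4 → Fin 4 → Fin 4 → Fin 4 → k) (x y : Fin 4 → R) (hu : IsUnit (den L L' Q y)) :
    snd1 L L' Q y (snd1 L L' Q y x) = x :=
  refl_refl 0 _ (Ring.mul_inverse_cancel _ hu)

end Pool.Agent.Helper37.CYL
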