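import Pool.Agent.Helper37.CYL.Chain
import Mathlib

/-!
# Dihedral chains

A chain is a family `(X i, Y i)`, `i` an integer, of normalised points, where `X i`, `X (sI i)` are
the two points over `Y i = Y (sI i)` and `Y i`, `Y (tI i)` are the two points over
`X i = X (tI i)`.  Every point over a local ring which reduces to a common ramification point is the
member number zero of exactly one chain.
-/

namespace Pool.Agent.Helper37.CYL

open Matrix MvPolynomial
open Pool.Agent.Helper37.RP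
open Pool.Agent.Helper47.NI (Dbl)

/-- The first involution of the index set. -/
def sI (i : ℤ) : ℤ := if Even i then i + 1 else i - 1

/-- The second involution of the index set. -/
def tI (i : ℤ) : ℤ := if Even i then i - 1 else i + 1

theorem sI_even {i : ℤ} (h : Even i) : sI i = i + 1 := if_pos h

theorem sI_odd {i : ℤ} (h : ¬ Even i) : sI i = i - 1 := if_neg h

theorem tI_even {i : ℤ} (h : Even i) : tI i = i - 1 := if_pos h

theorem tI_odd {i : ℤ} (h : ¬ Even i) : tI i = i + 1 := if_neg h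

theorem not_even_succ {i : ℤ} (h : Even i) : ¬ Even (i + 1) := by
  rw [Int.even_add_one]
  exact fun h' => h' h

theorem even_succ {i : ℤ} (h : ¬ Even i) : Even (i + 1) := by
  rw [Int.even_add_one]
  exact h

theorem not_even_pred {i : ℤ} (h : Even i) : ¬ Even (i - 1) := by
  rw [Int.even_sub_one]
  exact fun h' => h' h

theorem even_pred {i : ℤ} (h : ¬ Even i) : Even (i - 1) := by
  rw [Int.even_sub_one]
  exact h

theorem sI_sI (i : ℤ) : sI (sI i) = i := by
  by_cases h : Even i
  · rw [sI_even h, sI_odd (not_even_succ h)]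
    ring
  · rw [sI_odd h, sI_even (even_pred h)]
    ring

theorem tI_tI (i : ℤ) : tI (tI i) = i := by
  by_cases h : Even i
  · rw [tI_even h, tI_odd (not_even_pred h)]
    ring
  · rw [tI_odd h, tI_even (even_succ h)]
    ring

theorem sI_injective : Function.Injective sI := fun i j h => by
  rw [← sI_sI i, h, sI_sI]

theorem tI_injective : Function.Injective tI := fun i j h => by
  rw [← tI_tI i, h, tI_tI]

/-- The orbit of `z` under two involutions. -/
theorem exists_orbit {P : Type*} {σ τ : P → P} (hσ : Function.Involutive σ)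
    (hτ : Function.Involutive τ) (z : P) :
    ∃ w : ℤ → P, w 0 = z ∧ (∀ i, w (sI i) = σ (w i)) ∧ ∀ i, w (tI i) = τ (w i) := by
  let e : Equiv.Perm P := hτ.toPerm * hσ.toPerm
  have he : ∀ z, e z = τ (σ z) := fun _ => rfl
  have hz : ∀ (m : ℤ), (e ^ (m + 1)) z = τ (σ ((e ^ m) z)) := by
    intro m
    rw [add_comm, _root_.zpow_add, zpow_one]
    rfl
  refine ⟨fun i => if Even i then (e ^ (i / 2)) z else σ ((e ^ (i / 2)) z), ?_, ?_, ?_⟩
  · simp
  · intro i
    by_cases h : Even i
    · have h1 := not_even_succ h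
      have h2 : (i + 1) / 2 = i / 2 := by
        obtain ⟨m, rfl⟩ := h
        omega
      simp only [sI_even h, h, h1, if_true, if_false, h2]
    · have h1 := even_pred h
      have h2 : (i - 1) / 2 = i / 2 := by
        obtain ⟨m, rfl⟩ := Int.not_even_iff_odd.mp h
        omega
      simp only [sI_odd h, h, h1, if_true, if_false, h2]
      exact (hσ _).symm
  · intro i
    by_cases h : Even i
    · have h1 := not_even_pred h
      have h2 : i / 2 = (i - 1) / 2 + 1 := by
        obtain ⟨m, rfl⟩ := h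
        omega
      simp only [tI_even h, h, h1, if_true, if_false]
      rw [h2, hz]
      exact (hτ _).symm
    · have h1 := even_succ h
      have h2 : (i + 1) / 2 = i / 2 + 1 := by
        obtain ⟨m, rfl⟩ := Int.not_even_iff_odd.mp h
        omega
      simp only [tI_odd h, h, h1, if_true, if_false]
      rw [h2, hz]

/-- The orbit is unique. -/
theorem orbit_unique {P : Type*} {σ τ : P → P} {w w' : ℤ → P} (h0 : w 0 = w' 0)
    (h1 : ∀ i, w (sI i) = σ (w i)) (h2 : ∀ i, w (tI i) = τ (w i))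
    (h1' : ∀ i, w' (sI i) = σ (w' i)) (h2' : ∀ i, w' (tI i) = τ (w' i)) : w = w' := by
  funext i
  induction i using Int.induction_on with
  | zero => exact h0
  | succ i ih =>
    by_cases h : Even (i : ℤ)
    · have := h1 i
      rw [sI_even h] at this
      rw [this, ih, ← h1', sI_even h]
    · have := h2 i
      rw [tI_odd h] at this
      rw [this, ih, ← h2', tI_odd h]
  | pred i ih =>
    by_cases h : Even (-(i : ℤ))
    · have := h2 (-(i : ℤ))
      rw [tI_even h] at this
      rw [this, ih, ← h2', tI_even h]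
    · have := h1 (-(i : ℤ))
      rw [sI_odd h] at this
      rw [this, ih, ← h1', sI_odd h]

variable {k : Type*} [Field k]

/-- The second point over `x`. -/
noncomputable def snd2 {R : Type*} [CommRing R] [Algebra k R] (L L' : Matrix (Fin 4) (Fin 4) k)
    (Q : Fin 4 → Fin 4 → Fin 4 → Fin 4 → k) (x y : Fin 4 → R) : Fin 4 → R :=
  snd1 (fun i j => L j i) (fun i j => L' j i) (fun i j k l => Q k l i j) x y

/-- The denominator of `snd2`. -/
noncomputable def den2 {R : Type*} [CommRing R] [Algebra k R] (L L' : Matrix (Fin 4) (Fin 4) k)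
    (Q : Fin 4 → Fin 4 → Fin 4 → Fin 4 → k) (x : Fin 4 → R) : R :=
  den (fun i j => L j i) (fun i j => L' j i) (fun i j k l => Q k l i j) x

theorem map_den2 {R S : Type*} [CommRing R] [Algebra k R] [CommRing S] [Algebra k S]
    (f : R →ₐ[k] S) (L L' : Matrix (Fin 4) (Fin 4) k) (Q : Fin 4 → Fin 4 → Fin 4 → Fin 4 → k)
    (x : Fin 4 → R) : f (den2 L L' Q x) = den2 L L' Q (fun i => f (x i)) :=
  map_den f (fun i j => L j i) (fun i j => L' j i) (fun i j k l => Q k l i j) x

/-- A chain of points. -/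
structure IsChain {R : Type*} [CommRing R] [Algebra k R] (L L' : Matrix (Fin 4) (Fin 4) k)
    (Q : Fin 4 → Fin 4 → Fin 4 → Fin 4 → k) (X Y : ℤ → Fin 4 → R) : Prop where
  pt : ∀ i, IsPt L L' Q (X i) (Y i)
  ux : ∀ i, IsUnit (den L L' Q (Y i))
  uy : ∀ i, IsUnit (den2 L L' Q (X i))
  sX : ∀ i, X (sI i) = snd1 L L' Q (Y i) (X i)
  sY : ∀ i, Y (sI i) = Y i
  tX : ∀ i, X (tI i) = X i
  tY : ∀ i, Y (tI i) = snd2 L L' Q (X i) (Y i)

theorem IsChain.map {R S : Type*} [CommRing R] [Algebra k R] [CommRing S] [Algebra k S]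
    (f : R →ₐ[k] S) {L L' : Matrix (Fin 4) (Fin 4) k} {Q : Fin 4 → Fin 4 → Fin 4 → Fin 4 → k}
    {X Y : ℤ → Fin 4 → R} (h : IsChain L L' Q X Y) :
    IsChain L L' Q (fun i j => f (X i j)) (fun i j => f (Y i j)) where
  pt := fun i => (h.pt i).map f
  ux := fun i => by
    rw [← map_den f L L' Q (Y i)]
    exact (h.ux i).map f
  uy := fun i => by
    rw [← map_den2 f L L' Q (X i)]
    exact (h.uy i).map f
  sX := fun i => by
    funext j
    show f (X (sI i) j) = _
    rw [h.sX i]
    exact map_snd1 f L L' Q (Y i) (X i) (h.ux i) j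
  sY := fun i => by
    funext j
    show f (Y (sI i) j) = _
    rw [h.sY i]
  tX := fun i => by
    funext j
    show f (X (tI i) j) = _
    rw [h.tX i]
  tY := fun i => by
    funext j
    show f (Y (tI i) j) = _
    rw [h.tY i]
    exact map_snd1 f _ _ _ (X i) (Y i) (h.uy i) j

theorem IsChain.unique {R : Type*} [CommRing R] [Algebra k R] {L L' : Matrix (Fin 4) (Fin 4) k}
    {Q : Fin 4 → Fin 4 → Fin 4 → Fin 4 → k} {X Y X' Y' : ℤ → Fin 4 → R}
    (h : IsChain L L' Q X Y) (h' : IsChain L L' Q X' Y') (hX : X 0 = X' 0) (hY : Y 0 = Y' 0) :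
    X = X' ∧ Y = Y' := by
  have key : (fun i => (X i, Y i)) = fun i => (X' i, Y' i) := by
    refine orbit_unique (σ := fun p : (Fin 4 → R) × (Fin 4 → R) => (snd1 L L' Q p.2 p.1, p.2))
      (τ := fun p : (Fin 4 → R) × (Fin 4 → R) => (p.1, snd2 L L' Q p.1 p.2)) ?_ ?_ ?_ ?_ ?_
    · rw [hX, hY]
    · intro i
      show (X (sI i), Y (sI i)) = _
      rw [h.sX, h.sY]
    · intro i
      show (X (tI i), Y (tI i)) = _
      rw [h.tX, h.tY]
    · intro i
      show (X' (sI i), Y' (sI i)) = _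
      rw [h'.sX, h'.sY]
    · intro i
      show (X' (tI i), Y' (tI i)) = _
      rw [h'.tX, h'.tY]
  constructor
  · funext i
    exact congrArg Prod.fst (congrFun key i)
  · funext i
    exact congrArg Prod.snd (congrFun key i)

/-- The reversed chain. -/
theorem IsChain.rev {R : Type*} [CommRing R] [Algebra k R] {L L' : Matrix (Fin 4) (Fin 4) k}
    {Q : Fin 4 → Fin 4 → Fin 4 → Fin 4 → k} {X Y : ℤ → Fin 4 → R}
    (h : IsChain L L' Q X Y) : IsChain L L' Q (fun i => X (-1 - i)) (fun i => Y (-1 - i)) := by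
  have e1 : ∀ i, -1 - sI i = sI (-1 - i) := by
    intro i
    by_cases hi : Even i
    · have h2 : ¬ Even (-1 - i) := by
        obtain ⟨m, rfl⟩ := hi
        rintro ⟨n, hn⟩
        omega
      rw [sI_even hi, sI_odd h2]
      ring
    · have h2 : Even (-1 - i) := by
        obtain ⟨m, rfl⟩ := Int.not_even_iff_odd.mp hi
        exact ⟨-1 - m, by ring⟩
      rw [sI_odd hi, sI_even h2]
      ring
  have e2 : ∀ i, -1 - tI i = tI (-1 - i) := by
    intro i
    by_cases hi : Even i
    · have h2 : ¬ Even (-1 - i) := by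
        obtain ⟨m, rfl⟩ := hi
        rintro ⟨n, hn⟩
        omega
      rw [tI_even hi, tI_odd h2]
      ring
    · have h2 : Even (-1 - i) := by
        obtain ⟨m, rfl⟩ := Int.not_even_iff_odd.mp hi
        exact ⟨-1 - m, by ring⟩
      rw [tI_odd hi, tI_even h2]
      ring
  exact
    { pt := fun i => h.pt _
      ux := fun i => h.ux _
      uy := fun i => h.uy _
      sX := fun i => by rw [e1]; exact h.sX _
      sY := fun i => by rw [e1]; exact h.sY _
      tX := fun i => by rw [e2]; exact h.tX _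
      tY := fun i => by rw [e2]; exact h.tY _ }

/-- The point `(x₀, y₀)` is a ramification point of both coverings, isolated in its fibres. -/
structure Base (L L' : Matrix (Fin 4) (Fin 4) k) (Q : Fin 4 → Fin 4 → Fin 4 → Fin 4 → k)
    (x₀ y₀ : Fin 4 → k) : Prop where
  dx : den L L' Q y₀ ≠ 0
  dy : den2 L L' Q x₀ ≠ 0
  sx : snd1 L L' Q y₀ x₀ = x₀
  sy : snd2 L L' Q x₀ y₀ = y₀

section

variable {L L' : Matrix (Fin 4) (Fin 4) k} {Q : Fin 4 → Fin 4 → Fin 4 → Fin 4 → k}
  (hQ : ∀ i j k l, Q i j k l = Q j i k l) (hQ' : ∀ i j k l, Q i j k l = Q i j l k)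
  {x₀ y₀ : Fin 4 → k} (hB : Base L L' Q x₀ y₀)
  {R : Type*} [CommRing R] [Algebra k R] (ρ : R →ₐ[k] k) (hρ : ∀ r, ρ r ≠ 0 → IsUnit r)

include hB hρ

theorem isUnit_den {y : Fin 4 → R} (hy : (fun i => ρ (y i)) = y₀) : IsUnit (den L L' Q y) := by
  refine hρ _ ?_
  rw [map_den ρ, hy]
  exact hB.dx

theorem isUnit_den2 {x : Fin 4 → R} (hx : (fun i => ρ (x i)) = x₀) :
    IsUnit (den2 L L' Q x) := by
  refine hρ _ ?_
  rw [map_den2 ρ, hx]
  exact hB.dy

include hQ hQ'

/-- Every point which reduces to the base point is the member number zero of a chain of points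
which reduce to the base point. -/
theorem exists_chain {x y : Fin 4 → R} (h : IsPt L L' Q x y) (hx : (fun i => ρ (x i)) = x₀)
    (hy : (fun i => ρ (y i)) = y₀) :
    ∃ X Y : ℤ → Fin 4 → R, IsChain L L' Q X Y ∧ X 0 = x ∧ Y 0 = y ∧
      (∀ i, (fun j => ρ (X i j)) = x₀) ∧ ∀ i, (fun j => ρ (Y i j)) = y₀ := by
  let P := {p : (Fin 4 → R) × (Fin 4 → R) // IsPt L L' Q p.1 p.2 ∧
    (fun i => ρ (p.1 i)) = x₀ ∧ (fun i => ρ (p.2 i)) = y₀}
  let σ : P → P := fun p => ⟨(snd1 L L' Q p.1.2 p.1.1, p.1.2),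
    p.2.1.snd1 hQ (isUnit_den hB ρ hρ p.2.2.2), by
      have h1 := isUnit_den hB ρ hρ p.2.2.2
      have h2 : (fun i => ρ (snd1 L L' Q p.1.2 p.1.1 i)) =
          snd1 L L' Q (fun i => ρ (p.1.2 i)) (fun i => ρ (p.1.1 i)) := by
        funext i
        exact map_snd1 ρ L L' Q p.1.2 p.1.1 h1 i
      show (fun i => ρ (snd1 L L' Q p.1.2 p.1.1 i)) = x₀
      rw [h2, p.2.2.1, p.2.2.2]
      exact hB.sx, p.2.2.2⟩
  let τ : P → P := fun p => ⟨(p.1.1, snd2 L L' Q p.1.1 p.1.2), by
      have h1 := (p.2.1.swap).snd1 (fun i j k l => hQ' k l i j) (isUnit_den2 hB ρ hρ p.2.2.1)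
      exact h1.swap, p.2.2.1, by
      have h1 := isUnit_den2 hB ρ hρ p.2.2.1
      have h2 : (fun i => ρ (snd2 L L' Q p.1.1 p.1.2 i)) =
          snd2 L L' Q (fun i => ρ (p.1.1 i)) (fun i => ρ (p.1.2 i)) := by
        funext i
        exact map_snd1 ρ _ _ _ p.1.1 p.1.2 h1 i
      show (fun i => ρ (snd2 L L' Q p.1.1 p.1.2 i)) = y₀
      rw [h2, p.2.2.1, p.2.2.2]
      exact hB.sy⟩
  have hσ : Function.Involutive σ := by
    intro p
    apply Subtype.ext
    show (snd1 L L' Q p.1.2 (snd1 L L' Q p.1.2 p.1.1), p.1.2) = p.1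
    rw [snd1_snd1 L L' Q _ _ (isUnit_den hB ρ hρ p.2.2.2)]
  have hτ : Function.Involutive τ := by
    intro p
    apply Subtype.ext
    show (p.1.1, snd2 L L' Q p.1.1 (snd2 L L' Q p.1.1 p.1.2)) = p.1
    unfold snd2
    rw [snd1_snd1 _ _ _ _ _ (isUnit_den2 hB ρ hρ p.2.2.1)]
  obtain ⟨w, h0, h1, h2⟩ := exists_orbit hσ hτ (⟨(x, y), h, hx, hy⟩ : P)
  refine ⟨fun i => (w i).1.1, fun i => (w i).1.2, ?_, ?_, ?_, ?_, ?_⟩
  · exact
      { pt := fun i => (w i).2.1
        ux := fun i => isUnit_den hB ρ hρ (w i).2.2.2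
        uy := fun i => isUnit_den2 hB ρ hρ (w i).2.2.1
        sX := fun i => by
          show (w (sI i)).1.1 = _
          rw [h1]
        sY := fun i => by
          show (w (sI i)).1.2 = _
          rw [h1]
        tX := fun i => by
          show (w (tI i)).1.1 = _
          rw [h2]
        tY := fun i => by
          show (w (tI i)).1.2 = _
          rw [h2] }
  · show (w 0).1.1 = x
    rw [h0]
  · show (w 0).1.2 = y
    rw [h0]
  · exact fun i => (w i).2.2.1
  · exact fun i => (w i).2.2.2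

end

section Out

variable {L L' : Matrix (Fin 4) (Fin 4) k} {Q : Fin 4 → Fin 4 → Fin 4 → Fin 4 → k}
  {R : Type*} [CommRing R] [Algebra k R] {X Y : ℤ → Fin 4 → R}

/-- The hypothesis `hX` of the closure lemma. -/
theorem IsChain.outX (hQ : ∀ i j k l, Q i j k l = Q j i k l) (h : IsChain L L' Q X Y) (i : ℤ)
    (p : Fin 4 × Fin 4) : aeval (Y i) (chow4 L L' Q p.1 p.2) =
      den L L' Q (Y i) * Pool.Agent.Helper47.NI.pr (X i) (X (sI i)) p := by
  rw [(h.pt i).chow hQ (h.ux i) p.1 p.2, ← h.sX i]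
  rfl

/-- The hypothesis `hY` of the closure lemma. -/
theorem IsChain.outY (hQ' : ∀ i j k l, Q i j k l = Q i j l k) (h : IsChain L L' Q X Y) (i : ℤ)
    (p : Fin 4 × Fin 4) :
    aeval (X i) (chow4 (fun i j => L j i) (fun i j => L' j i) (fun i j k l => Q k l i j)
      p.1 p.2) = den2 L L' Q (X i) * Pool.Agent.Helper47.NI.pr (Y i) (Y (tI i)) p := by
  rw [((h.pt i).swap).chow (fun i j k l => hQ' k l i j) (h.uy i) p.1 p.2]
  have e := h.tY i
  rw [snd2] at e
  rw [← e]
  rfl

end Out

end Pool.Agent.Helper37.CYL
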