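import Mathlib

/-!
# Transport of points

`A` is a subalgebra of a domain `R` such that every element of `R` is a fraction of elements of `A`
whose denominator is a unit of `R`.  If `A` has many homomorphisms to `L`, then every algebra of
finite type with a homomorphism to `R` has many homomorphisms to `L`.
-/

namespace Pool.Agent.Helper37.CYL

theorem exists_point {K L R : Type*} [Field K] [Field L] [Algebra K L] [CommRing R] [IsDomain R]
    [Algebra K R] (A : Subalgebra K R)
    (hloc : ∀ z : R, ∃ a ∈ A, ∃ s ∈ A, IsUnit s ∧ z * s = a)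
    (hZ : ∀ a : A, a ≠ 0 → ∃ φ : A →ₐ[K] L, φ a ≠ 0)
    {C : Type*} [CommRing C] [Algebra K C] [hC : Algebra.FiniteType K C]
    (g : C →ₐ[K] R) (h : C) (hg : g h ≠ 0) : ∃ φ : C →ₐ[K] L, φ h ≠ 0 := by
  classical
  obtain ⟨S, hS⟩ := hC.out
  choose a ha s hs hu has using hloc
  let s' : R → A := fun z => ⟨s z, hs z⟩
  let a' : R → A := fun z => ⟨a z, ha z⟩
  obtain ⟨φ, hφ⟩ := hZ (a' (g h) * s' (g h) * ∏ z ∈ S, s' (g z)) (by
    intro hmem
    have e : ((a' (g h) * s' (g h) * ∏ z ∈ S, s' (g z) : A) : R) =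
        a (g h) * s (g h) * ∏ z ∈ S, s (g z) := by
      push_cast
      rfl
    rw [hmem] at e
    have e' : a (g h) * s (g h) * ∏ z ∈ S, s (g z) = 0 := e.symm
    rcases mul_eq_zero.mp e' with h1 | h1
    · rcases mul_eq_zero.mp h1 with h2 | h2
      · rw [← has] at h2
        rcases mul_eq_zero.mp h2 with h3 | h3
        · exact hg h3
        · exact (hu (g h)).ne_zero h3
      · exact (hu (g h)).ne_zero h2
    · obtain ⟨z, _, hz⟩ := Finset.prod_eq_zero_iff.mp h1
      exact (hu (g z)).ne_zero hz)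
  rw [map_mul, map_mul, map_prod] at hφ
  have h1 : φ (a' (g h)) ≠ 0 := fun e => hφ (by rw [e, zero_mul, zero_mul])
  have h2 : φ (s' (g h)) ≠ 0 := fun e => hφ (by rw [e, mul_zero, zero_mul])
  have h3 : ∀ z ∈ S, φ (s' (g z)) ≠ 0 := fun z hz e => hφ (by
    rw [Finset.prod_eq_zero hz e, mul_zero])
  let M : Submonoid A :=
    { carrier := {x | φ x ≠ 0 ∧ IsUnit (x : R)}
      one_mem' := ⟨by rw [map_one]; exact one_ne_zero, isUnit_one⟩
      mul_mem' := fun {x y} hx hy => ⟨by rw [map_mul]; exact mul_ne_zero hx.1 hy.1,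
        hx.2.mul hy.2⟩ }
  let B := Localization M
  let ι : B →ₐ[K] R := IsLocalization.liftAlgHom (M := M) (f := A.val) (fun y => y.2.2)
  let φB : B →ₐ[K] L := IsLocalization.liftAlgHom (M := M) (f := φ) (fun y => by
    exact isUnit_iff_ne_zero.mpr y.2.1)
  have hιA : ∀ x : A, ι (algebraMap A B x) = x := fun x => by
    exact IsLocalization.lift_eq _ x
  have hφA : ∀ x : A, φB (algebraMap A B x) = φ x := fun x => by
    exact IsLocalization.lift_eq _ x
  have hinj : Function.Injective ι := by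
    rw [injective_iff_map_eq_zero]
    intro b hb
    obtain ⟨⟨x, m⟩, hxm⟩ := IsLocalization.surj M b
    have e1 : ι b * ι (algebraMap A B m) = ι (algebraMap A B x) := by
      rw [← map_mul, hxm]
    rw [hb, zero_mul, hιA] at e1
    have e2 : x = 0 := Subtype.ext e1.symm
    rw [e2, map_zero] at hxm
    exact ((IsLocalization.map_units B m).mul_left_eq_zero).mp hxm
  have hmem : ∀ z : R, φ (s' z) ≠ 0 → ∃ b : B, ι b = z ∧ φB b * φ (s' z) = φ (a' z) := by
    intro z hz
    let m : M := ⟨s' z, hz, hu z⟩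
    refine ⟨IsLocalization.mk' B (a' z) m, ?_, ?_⟩
    · have e1 : ι (IsLocalization.mk' B (a' z) m) * ι (algebraMap A B (s' z)) =
          ι (algebraMap A B (a' z)) := by
        rw [← map_mul]
        congr 1
        exact IsLocalization.mk'_spec B (a' z) m
      rw [hιA, hιA] at e1
      have e2 : z * s z = a z := has z
      exact (hu z).mul_right_cancel (e1.trans e2.symm)
    · rw [← hφA, ← hφA, ← map_mul]
      congr 1
      exact IsLocalization.mk'_spec B (a' z) m
  have hrange : ∀ x : C, g x ∈ ι.range := by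
    intro x
    have h5 : (⊤ : Subalgebra K C) ≤ ι.range.comap g := by
      rw [← hS]
      refine Algebra.adjoin_le fun z hz => ?_
      obtain ⟨b, hb, _⟩ := hmem (g z) (h3 z hz)
      exact ⟨b, hb⟩
    exact h5 Algebra.mem_top
  let ψ : C →ₐ[K] L := (φB.comp (AlgEquiv.ofInjective ι hinj).symm.toAlgHom).comp
    (g.codRestrict ι.range hrange)
  refine ⟨ψ, ?_⟩
  obtain ⟨b, hb, hb2⟩ := hmem (g h) h2
  have e : ψ h = φB b := by
    show φB ((AlgEquiv.ofInjective ι hinj).symm ⟨g h, hrange h⟩) = φB b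
    congr 1
    rw [AlgEquiv.symm_apply_eq]
    apply Subtype.ext
    rw [AlgEquiv.ofInjective_apply]
    exact hb.symm
  rw [e]
  intro h0
  rw [h0, zero_mul] at hb2
  exact h1 hb2.symm

/-- The fractions of elements of `A` whose denominators are units of `R`. -/
def fracSub {K R : Type*} [CommRing K] [CommRing R] [Algebra K R] (A : Subalgebra K R) :
    Subalgebra K R where
  carrier := {z | ∃ a ∈ A, ∃ s ∈ A, IsUnit s ∧ z * s = a}
  mul_mem' := by
    rintro x y ⟨a, ha, s, hs, hsu, hx⟩ ⟨b, hb, t, ht, htu, hy⟩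
    exact ⟨a * b, A.mul_mem ha hb, s * t, A.mul_mem hs ht, hsu.mul htu, by
      rw [← hx, ← hy]; ring⟩
  add_mem' := by
    rintro x y ⟨a, ha, s, hs, hsu, hx⟩ ⟨b, hb, t, ht, htu, hy⟩
    exact ⟨a * t + b * s, A.add_mem (A.mul_mem ha ht) (A.mul_mem hb hs), s * t,
      A.mul_mem hs ht, hsu.mul htu, by rw [← hx, ← hy]; ring⟩
  algebraMap_mem' := fun r => ⟨algebraMap K R r, A.algebraMap_mem r, 1, A.one_mem, isUnit_one,
    by rw [mul_one]⟩

theorem le_fracSub {K R : Type*} [CommRing K] [CommRing R] [Algebra K R] (A : Subalgebra K R) :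
    A ≤ fracSub A := fun z hz => ⟨z, hz, 1, A.one_mem, isUnit_one, by rw [mul_one]⟩

/-- The inverse of a unit of `R` which is a fraction is a fraction. -/
theorem inv_mem_fracSub {K R : Type*} [CommRing K] [CommRing R] [Algebra K R]
    (A : Subalgebra K R) {z w : R} (hz : z ∈ fracSub A) (hw : z * w = 1) : w ∈ fracSub A := by
  obtain ⟨a, ha, s, hs, hsu, hx⟩ := hz
  have hzu : IsUnit z := IsUnit.of_mul_eq_one w hw
  refine ⟨s, hs, a, ha, by rw [← hx]; exact hzu.mul hsu, ?_⟩
  rw [← hx]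
  calc w * (z * s) = (z * w) * s := by ring
    _ = s := by rw [hw, one_mul]

theorem isUnit_fracSub {K R : Type*} [CommRing K] [CommRing R] [Algebra K R]
    (A : Subalgebra K R) (z : fracSub A) (hz : IsUnit (z : R)) : IsUnit z := by
  obtain ⟨w, hw⟩ := hz.exists_right_inv
  exact IsUnit.of_mul_eq_one ⟨w, inv_mem_fracSub A z.2 hw⟩ (Subtype.ext hw)

/-- `exists_point` for the ring of fractions of elements of `A` with unit denominators. -/
theorem exists_point_frac {K L R : Type*} [Field K] [Field L] [Algebra K L] [CommRing R]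
    [IsDomain R] [Algebra K R] (A : Subalgebra K R)
    (hZ : ∀ a : A, a ≠ 0 → ∃ φ : A →ₐ[K] L, φ a ≠ 0)
    {C : Type*} [CommRing C] [Algebra K C] [Algebra.FiniteType K C]
    (g : C →ₐ[K] fracSub A) (h : C) (hg : g h ≠ 0) : ∃ φ : C →ₐ[K] L, φ h ≠ 0 := by
  let A' : Subalgebra K (fracSub A) := A.comap (fracSub A).val
  let e : A' →ₐ[K] A :=
    { toFun := fun z => ⟨((z : fracSub A) : R), z.2⟩
      map_one' := rfl
      map_mul' := fun _ _ => rfl
      map_zero' := rfl
      map_add' := fun _ _ => rfl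
      commutes' := fun _ => rfl }
  refine exists_point A' ?_ ?_ g h hg
  · intro z
    obtain ⟨a, ha, s, hs, hsu, hz⟩ := z.2
    refine ⟨⟨a, le_fracSub A ha⟩, ha, ⟨s, le_fracSub A hs⟩, hs,
      isUnit_fracSub A ⟨s, le_fracSub A hs⟩ hsu, ?_⟩
    exact Subtype.ext hz
  · intro a ha
    obtain ⟨φ, hφ⟩ := hZ (e a) (fun h0 => ha (by
      apply Subtype.ext
      apply Subtype.ext
      exact congrArg (fun z : A => (z : R)) h0))
    exact ⟨φ.comp e, hφ⟩

end Pool.Agent.Helper37.CYL
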